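import Pool.Agent.H8.LipTree4

set_option autoImplicit false

namespace Pool.Agent.Results.MP_2744a5_an.Surjective

open Pool.Agent.H8.LipTree

theorem result : ∃ (T : Type) (o : T) (par : T → T) (φ : T → T) (c : ℂ),
    IsRootedTree o par ∧ Infinite T ∧ IsCompOp o par φ ∧ ‖c‖ ≤ 1 ∧
    Hypercyclic o par (fun f => c • (f ∘ φ)) ∧ (Set.range φ)ᶜ = ∅ :=
  ⟨ℤ, 0, p, fun x => x + 1, 1, tree, inferInstance, compOp, by simp, hyper, by
    rw [Set.compl_empty_iff, Set.range_eq_univ]; exact add_right_surjective 1⟩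

end Pool.Agent.Results.MP_2744a5_an.Surjective
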